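import Pool.Agent.TH375.KL.Families

/-!
# Lang-Trotter counts in one-parameter families of elliptic curves

Let `W` be a Weierstrass curve over `ℤ[T]` and `E_t` its member at the integer `t`.  For almost all `t` of an
arbitrary interval of length `N ≥ z²`, the numbers of primes `p ≤ x` with Frobenius trace `r` agree with their
mean values over the family with a square root error term, for all traces `r` and all `x ≤ z` at once.
-/

set_option autoImplicit false

namespace Pool.Agent.Results.MP_f1937f_nt.OneParameterFamilies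

/-- The member at the integer `t` of the one-parameter family `W` of Weierstrass curves. -/
noncomputable def member (W : WeierstrassCurve (Polynomial ℤ)) (t : ℤ) : WeierstrassCurve ℤ :=
  W.map (Polynomial.evalRingHom t)

/-- The Frobenius trace `a_p(E)`: `p` minus the number of affine points modulo `p`. -/
noncomputable def trace (E : WeierstrassCurve ℤ) (p : ℕ) : ℤ :=
  p - ({P : ZMod p × ZMod p |
    (E.map (Int.castRingHom (ZMod p))).toAffine.Equation P.1 P.2}.ncard : ℤ)

open scoped Classical in
/-- The number of primes `p ≤ x` not dividing the discriminant with `a_p(E) = r`. -/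
noncomputable def traceCount (E : WeierstrassCurve ℤ) (r : ℤ) (x : ℕ) : ℕ :=
  (((Finset.range (x + 1)).filter Nat.Prime).filter fun p : ℕ =>
    ¬ (p : ℤ) ∣ E.Δ ∧ trace E p = r).card

open scoped Classical in
/-- The mean value over the family: the sum over the primes `p ≤ x` of the proportion of the residue classes
`u` modulo `p` with `p` not dividing the discriminant of `E_u` and `a_p(E_u) = r`. -/
noncomputable def familyMean (W : WeierstrassCurve (Polynomial ℤ)) (r : ℤ) (x : ℕ) : ℝ :=
  ∑ p ∈ (Finset.range (x + 1)).filter Nat.Prime,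
    (((Finset.range p).filter fun u : ℕ =>
      ¬ (p : ℤ) ∣ (member W u).Δ ∧ trace (member W u) p = r).card : ℝ) / p

section
open Pool.Agent.TH375.KL

theorem red_eq (W : WeierstrassCurve (Polynomial ℤ)) {p : ℕ} {t u : ℤ} (h : (p : ℤ) ∣ t - u) :
    (member W t).map (Int.castRingHom (ZMod p)) = (member W u).map (Int.castRingHom (ZMod p)) := by
  unfold member
  rw [WeierstrassCurve.map_map, WeierstrassCurve.map_map]
  congr 1
  refine Polynomial.ringHom_ext (fun a => ?_) ?_
  · simp
  · simp only [RingHom.coe_comp, Function.comp_apply, Polynomial.coe_evalRingHom,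
      Polynomial.eval_X, Int.coe_castRingHom]
    rw [← sub_eq_zero, ← Int.cast_sub]
    exact (ZMod.intCast_zmod_eq_zero_iff_dvd _ _).2 h

theorem good_iff (E : WeierstrassCurve ℤ) (p : ℕ) :
    (p : ℤ) ∣ E.Δ ↔ (E.map (Int.castRingHom (ZMod p))).Δ = 0 := by
  rw [WeierstrassCurve.map_Δ, Int.coe_castRingHom, ZMod.intCast_zmod_eq_zero_iff_dvd]

/-- the event -/
abbrev ev (W : WeierstrassCurve (Polynomial ℤ)) (r : ℤ) (p : ℕ) (t : ℤ) : Prop :=
  ¬ (p : ℤ) ∣ (member W t).Δ ∧ trace (member W t) p = r

theorem ev_congr (W : WeierstrassCurve (Polynomial ℤ)) (r : ℤ) {p : ℕ} {t u : ℤ}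
    (h : (p : ℤ) ∣ t - u) : ev W r p t ↔ ev W r p u := by
  unfold ev trace
  rw [good_iff, good_iff, red_eq W h]

open scoped Classical in
/-- the indicator function of the event -/
noncomputable def phi (W : WeierstrassCurve (Polynomial ℤ)) (r : ℤ) (p : ℕ) (t : ℤ) : ℝ :=
  if ev W r p t then 1 else 0

theorem phi_sq (W : WeierstrassCurve (Polynomial ℤ)) (r : ℤ) (p : ℕ) (t : ℤ) :
    phi W r p t ^ 2 = phi W r p t := by
  unfold phi
  split_ifs <;> norm_num

theorem phi_per (W : WeierstrassCurve (Polynomial ℤ)) (r : ℤ) (p : ℕ) (t u : ℤ) (_ : p.Prime)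
    (h : (p : ℤ) ∣ t - u) : phi W r p t = phi W r p u := by
  unfold phi
  by_cases h1 : ev W r p t
  · rw [if_pos h1, if_pos ((ev_congr W r h).1 h1)]
  · rw [if_neg h1, if_neg fun h2 => h1 ((ev_congr W r h).2 h2)]

theorem phi_eq (W : WeierstrassCurve (Polynomial ℤ)) (r : ℤ) (p : ℕ) (t : ℤ)
    [inst : Decidable (ev W r p t)] : (if ev W r p t then (1 : ℝ) else 0) = phi W r p t := by
  unfold phi
  by_cases h1 : ev W r p t
  · rw [if_pos h1, if_pos h1]
  · rw [if_neg h1, if_neg h1]

theorem count_eq (W : WeierstrassCurve (Polynomial ℤ)) (r t : ℤ) (x : ℕ) :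
    (traceCount (member W t) r x : ℝ) = ∑ p ∈ Prm x, phi W r p t := by
  unfold traceCount Prm
  rw [Finset.card_filter]
  push_cast
  exact Finset.sum_congr rfl fun p _ => phi_eq W r p t

theorem mean_eq (W : WeierstrassCurve (Polynomial ℤ)) (r : ℤ) (x : ℕ) :
    familyMean W r x = ∑ p ∈ Prm x, mv (phi W r) p := by
  unfold familyMean Prm mv
  refine Finset.sum_congr rfl fun p _ => ?_
  rw [Finset.card_filter]
  push_cast
  exact congrArg (· / (p : ℝ)) (Finset.sum_congr rfl fun u _ => phi_eq W r p (u : ℤ))

/-- the mean values of all traces together are at most the number of primes -/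
theorem mean_le (W : WeierstrassCurve (Polynomial ℤ)) (S : Finset ℤ) (z : ℕ) :
    ∑ r ∈ S, familyMean W r z ≤ Nat.primeCounting z := by
  have h0 : Nat.primeCounting z = ((Finset.range (z + 1)).filter Nat.Prime).card := by
    unfold Nat.primeCounting Nat.primeCounting'
    rw [Nat.count_eq_card_filter_range]
  unfold familyMean
  rw [Finset.sum_comm, h0]
  refine (Finset.sum_le_card_nsmul _ _ 1 fun p hp => ?_).trans (le_of_eq ?_)
  · rw [Finset.mem_filter] at hp
    have hp0 : (0 : ℝ) < p := by exact_mod_cast hp.2.pos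
    rw [← Finset.sum_div, div_le_one hp0]
    have h1 : ∑ r ∈ S, ((Finset.range p).filter fun u : ℕ =>
        ¬ (p : ℤ) ∣ (member W u).Δ ∧ trace (member W u) p = r).card ≤ p := by
      rw [← Finset.card_biUnion]
      · refine (Finset.card_le_card (Finset.biUnion_subset.2 fun r _ =>
          Finset.filter_subset _ _)).trans (le_of_eq (Finset.card_range p))
      · intro r _ r' _ hne
        rw [Function.onFun, Finset.disjoint_left]
        intro u h2 h3
        rw [Finset.mem_filter] at h2 h3
        exact hne (h2.2.2.symm.trans h3.2.2)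
    exact_mod_cast h1
  · rw [nsmul_eq_mul, mul_one]

end

/-- **Lang-Trotter counts for almost all members of a one-parameter family, all traces and all `x` at once.**

Let `W` be a Weierstrass curve over `ℤ[T]` with members `E_t`, `S` a finite set of integers, `K > 0`.  For all
but at most `6 (N + z²) / K` of the integers `t` in `(M, M + N]`, and for all choices of `x_r ≤ z`,
`∑_{r ∈ S} (P_{E_t, r}(x_r) - m_r(x_r))² ≤ K (log₂ z + 2)² ∑_{r ∈ S} m_r(z)`, where `P_{E, r}(x)` is the number
of primes `p ≤ x` of good reduction with `a_p(E) = r` and `m_r(x)` its mean value over the family; and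
`∑_{r ∈ S} m_r(z) ≤ π(z)`. -/
theorem result (W : WeierstrassCurve (Polynomial ℤ)) (S : Finset ℤ) (M : ℤ) (N z : ℕ) (K : ℝ)
    (hK : 0 < K) :
    ({t : ℤ | M < t ∧ t ≤ M + N ∧ ∃ x : ℤ → ℕ, (∀ r, x r ≤ z) ∧
      K * (Nat.log 2 z + 2) ^ 2 * ∑ r ∈ S, familyMean W r z <
        ∑ r ∈ S, ((traceCount (member W t) r (x r) : ℝ) - familyMean W r (x r)) ^ 2}.ncard : ℝ) ≤
      6 * (N + (z : ℝ) ^ 2) / K ∧
    ∑ r ∈ S, familyMean W r z ≤ Nat.primeCounting z :=
  ⟨Pool.Agent.TH375.KL.few_members S (phi W) (phi_sq W) (phi_per W) M N z hK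
    (fun r t x => (traceCount (member W t) r x : ℝ)) (familyMean W) (count_eq W) (mean_eq W),
    mean_le W S z⟩

end Pool.Agent.Results.MP_f1937f_nt.OneParameterFamilies
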